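import Pool.Agent.QD.Main

/-!
# Splittings over two-ended subgroups and quasi-isometries: groups with a group algebra in a
division ring
-/

namespace Pool.Agent.H67.Kept.DivisionRing

open Pool.Agent.QIS

/-- Let `G` be a finitely generated one-ended group that is not finitely presented and has a
subgroup `G₀` of finite index whose group algebra over some field embeds in a division ring. If `G`
splits over a two-ended subgroup, then every finitely generated group quasi-isometric to `G` splits
over a two-ended subgroup. -/
theorem result (G H : Type) [Group G] [Group H] (S : Set G) (S' : Set H)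
    (hS : S.Finite) (hS' : S'.Finite)
    (hSg : Subgroup.closure S = ⊤) (hS'g : Subgroup.closure S' = ⊤)
    (hone : OneEnded S) (hnfp : ¬ Group.IsFinitelyPresented G)
    (hspl : SplitsOverTwoEnded G)
    (G₀ : Subgroup G) (hG₀ : G₀.FiniteIndex)
    (k D : Type) [Field k] [DivisionRing D] (ι : MonoidAlgebra k G₀ →+* D)
    (hι : Function.Injective ι)
    (hqi : ∃ (K : ℕ) (φ : G → H), IsQI S S' K φ) : SplitsOverTwoEnded H :=
  Pool.Agent.QD.main_all G H S S' hS hS' hSg hS'g hone hnfp hspl G₀ hG₀ k D ι hι hqi

end Pool.Agent.H67.Kept.DivisionRing
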